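import Pool.Agent.H32.RQ.All
import Pool.Agent.H1.HFQ.DL1
import Pool.Agent.H1.HFQ.ST1
import Pool.Agent.H16.HFQ.HP1
import Pool.Agent.H16.HFQ.RR1
import Pool.Agent.H16.HFQ.SE0
import Pool.Agent.H2.HFQ.LOI
import Pool.Agent.H20.HFQ.PX1
import Pool.Agent.H20.HFQ.SM1
import Pool.Agent.H23.HFQ.LO0
import Pool.Agent.H23.HFQ.LPP
import Pool.Agent.H23.HFQ.PN2
import Pool.Agent.H27.FQ.DVC
import Pool.Agent.H27.FQ.GSA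
import Pool.Agent.H27.FQ.UC2
import Pool.Agent.H34.HFQ.MN1
import Pool.Agent.H34.HFQ.NFE
import Pool.Agent.H4.HFQ.CU1
import Pool.Agent.H4.HFQ.RZA
import Pool.Agent.H4.HFQ.SE1
import Pool.Agent.H40.HFQ.LO1
import Pool.Agent.H48.HFQ.DI1
import Pool.Agent.H48.HFQ.PB1
import Pool.Agent.H48.HFQ.PN1
import Pool.Agent.H48.HFQ.QRC
import Pool.Agent.H48.HFQ.RRN
import Pool.Agent.H48.HFQ.RT1
import Pool.Agent.H52.HFQ.AC3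
import Pool.Agent.H52.HFQ.GDT
import Pool.Agent.H52.HFQ.PO2
import Pool.Agent.H52.HFQ.PO3
import Pool.Agent.H52.HFQ.RCN
import Pool.Agent.H52.HFQ.SP1
import Pool.Agent.H52.HFQ.SXB
import Pool.Agent.H52.HFQ.SZP
import Pool.Agent.H61.HFQ.PO1
import Pool.Agent.H67.HFQ.ECD
import Pool.Agent.H67.HFQ.TR1
import Pool.Agent.H67.HFQ.VR1
import Pool.Agent.H69.HFQ.RZF
import Pool.Agent.H70.HFQ.HC1
import Pool.Agent.H70.HFQ.NSM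
import Pool.Agent.H71.HFQ.GLO
import Pool.Agent.H71.HFQ.GSB
import Pool.Agent.H71.HFQ.GUP
import Pool.Agent.H76.HFQ.AC2
import Pool.Agent.H76.HFQ.CHE
import Pool.Agent.H76.HFQ.PAL
import Pool.Agent.H76.HFQ.PFG
import Pool.Agent.H76.HFQ.PN3
import Pool.Agent.H76.HFQ.PNG
import Pool.Agent.H76.HFQ.RZE
import Pool.Agent.H76.HFQ.TB1
import Pool.Agent.H79.HFQ.AC1
import Pool.Agent.H79.HFQ.PAR
import Pool.Agent.H80.HFQ.PO0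
import Pool.Agent.H82.HFQ.PAV
import Pool.Agent.H82.HFQ.UCL
import Pool.Agent.H90.FQ.MOV
import Pool.Agent.H90.FQ.PBK
import Pool.Agent.H90.FQ.TRM

/-!
Assembly of the rows of the board hfq_modules (`MP_63b6b1_nt`).
-/

set_option autoImplicit false

namespace Pool.Agent.H34.FQ.All

open Pool.Agent.H34.FQ

theorem x_VR1 : T_VR1 := Pool.Agent.H67.HFQ.pf_VR1 Pool.Agent.H32.RQ.All.x_EXF Pool.Agent.H32.RQ.All.x_KPB Pool.Agent.H32.RQ.All.x_KPL Pool.Agent.H32.RQ.All.x_FJB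

theorem x_TR1 : T_TR1 := Pool.Agent.H67.HFQ.pf_TR1 Pool.Agent.H32.RQ.All.x_FJB

theorem x_ST1 : T_ST1 := Pool.Agent.H1.HFQ.pf_ST1

theorem x_DL1 : T_DL1 := Pool.Agent.H1.HFQ.pf_DL1

theorem x_PX1 : T_PX1 := Pool.Agent.H20.HFQ.pf_PX1 x_ST1 Pool.Agent.H32.RQ.All.x_CLS Pool.Agent.H32.RQ.All.x_CL2 Pool.Agent.H32.RQ.All.x_CNT

theorem x_PB1 : T_PB1 := Pool.Agent.H48.HFQ.pf_PB1 x_PX1 x_DL1 Pool.Agent.H32.RQ.All.x_PKP Pool.Agent.H32.RQ.All.x_KPB Pool.Agent.H32.RQ.All.x_FJB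

theorem x_DI1 : T_DI1 := Pool.Agent.H48.HFQ.pf_DI1 Pool.Agent.H32.RQ.All.x_CL2 Pool.Agent.H32.RQ.All.x_FJB

theorem x_GDT : T_GDT := Pool.Agent.H52.HFQ.pf_GDT

theorem x_GSA : T_GSA := Pool.Agent.H27.FQ.pf_GSA

theorem x_GSB : T_GSB := Pool.Agent.H71.HFQ.pf_GSB x_GSA Pool.Agent.H32.RQ.All.x_FJT

theorem x_GUP : T_GUP := Pool.Agent.H71.HFQ.pf_GUP x_GSB Pool.Agent.H32.RQ.All.x_FJB

theorem x_GLO : T_GLO := Pool.Agent.H71.HFQ.pf_GLO x_GSB Pool.Agent.H32.RQ.All.x_FJB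

theorem x_CHE : T_CHE := Pool.Agent.H76.HFQ.pf_CHE

theorem x_RZE : T_RZE := Pool.Agent.H76.HFQ.pf_RZE x_GUP

theorem x_DVC : T_DVC := Pool.Agent.H27.FQ.pf_DVC

theorem x_ECD : T_ECD := Pool.Agent.H67.HFQ.pf_ECD x_GUP x_CHE

theorem x_PAV : T_PAV := Pool.Agent.H82.HFQ.pf_PAV Pool.Agent.H32.RQ.All.x_PAI

theorem x_PAR : T_PAR := Pool.Agent.H79.HFQ.PAR.pf_PAR x_DVC

theorem x_NSM : T_NSM := Pool.Agent.H70.HFQ.pf_NSM x_GUP x_CHE x_ECD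

theorem x_SM1 : T_SM1 := Pool.Agent.H20.HFQ.pf_SM1

theorem x_SE0 : T_SE0 := Pool.Agent.H16.HFQ.pf_SE0 x_SM1 x_NSM x_PAV x_PAR x_DVC

theorem x_SXB : T_SXB := Pool.Agent.H52.HFQ.pf_SXB

theorem x_SE1 : T_SE1 := Pool.Agent.H4.HFQ.pf_SE1 x_SE0 x_SXB x_GDT x_PB1 x_DI1 x_ECD Pool.Agent.H32.RQ.All.x_PKP Pool.Agent.H32.RQ.All.x_DEP

theorem x_AC2 : T_AC2 := Pool.Agent.H76.HFQ.pf_AC2

theorem x_AC3 : T_AC3 := Pool.Agent.H52.HFQ.pf_AC3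

theorem x_AC1 : T_AC1 := Pool.Agent.H79.HFQ.pf_AC1 x_AC2 x_AC3 Pool.Agent.H32.RQ.All.x_AQ1

theorem x_TB1 : T_TB1 := Pool.Agent.H76.HFQ.pf_TB1

theorem x_PBK : T_PBK := Pool.Agent.H90.FQ.pf_PBK

theorem x_QRC : T_QRC := Pool.Agent.H48.HFQ.pf_QRC

theorem x_QZC : T_QZC := Pool.Agent.H48.HFQ.pf_QZC x_QRC

theorem x_PAL : T_PAL := Pool.Agent.H76.HFQ.pf_PAL

theorem x_PFG : T_PFG := Pool.Agent.H76.HFQ.pf_PFG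

theorem x_PNG : T_PNG := Pool.Agent.H76.HFQ.pf_PNG x_QZC x_PAL x_PFG

theorem x_PN1 : T_PN1 := Pool.Agent.H48.HFQ.pf_PN1 x_PNG x_TB1

theorem x_PN2 : T_PN2 := Pool.Agent.H23.HFQ.pf_PN2 x_PNG x_TB1 x_PBK

theorem x_PN3 : T_PN3 := Pool.Agent.H76.HFQ.pf_PN3 x_TB1

theorem x_MOV : T_MOV := Pool.Agent.H90.FQ.pf_MOV Pool.Agent.H32.RQ.All.x_HEN x_PBK

theorem x_TRM : T_TRM := Pool.Agent.H90.FQ.pf_TRM x_PBK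

theorem x_LPP : T_LPP := Pool.Agent.H23.HFQ.pf_LPP x_PN1 x_PN2 x_PN3 x_MOV x_TRM Pool.Agent.H32.RQ.All.x_QPZ

theorem x_HC1 : T_HC1 := Pool.Agent.H70.HFQ.HC.pf_HC1

theorem x_CR1 : T_CR1 := Pool.Agent.H27.FQ.UC2.pf_CR1

theorem x_UC2 : T_UC2 := Pool.Agent.H27.FQ.UC2.pf_UC2

theorem x_UCL : T_UCL := Pool.Agent.H82.HFQ.pf_UCL x_HC1 x_CR1 x_UC2

theorem x_RR1 : T_RR1 := Pool.Agent.H16.HFQ.pf_RR1

theorem x_NFE : T_NFE := Pool.Agent.H34.HFQ.pf_NFE x_PBK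

theorem x_RCN : T_RCN := Pool.Agent.H52.HFQ.pf_RCN

theorem x_CU1 : T_CU1 := Pool.Agent.H4.HFQ.pf_CU1

theorem x_LO0 : T_LO0 := Pool.Agent.H23.HFQ.pf_LO0 x_GLO x_CU1

theorem x_LOI : T_LOI := Pool.Agent.H2.HFQ.pf_LOI

theorem x_LO1 : T_LO1 := Pool.Agent.H40.HFQ.pf_LO1 x_LO0 x_LOI x_CHE x_RZE Pool.Agent.H32.RQ.All.x_BDI

theorem x_MN1 : T_MN1 := Pool.Agent.H34.HFQ.pf_MN1 x_VR1 x_TR1 x_SE1 x_LO1 x_UCL x_SXB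

theorem x_PO0 : T_PO0 := Pool.Agent.H80.HFQ.pf_PO0 x_PBK

theorem x_PO2 : T_PO2 := Pool.Agent.H52.HFQ.pf_PO2

theorem x_PO3 : T_PO3 := Pool.Agent.H52.HFQ.pf_PO3

theorem x_PO1 : T_PO1 := Pool.Agent.H61.HFQ.pf_PO1 x_MN1 x_AC1 x_PO0 x_PO2 x_PO3 x_TRM x_NFE

theorem x_SP1 : T_SP1 := Pool.Agent.H52.HFQ.pf_SP1

theorem x_SZP : T_SZP := Pool.Agent.H52.HFQ.pf_SZP

theorem x_RZA : T_RZA := Pool.Agent.H4.HFQ.pf_RZA x_NFE x_PBK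

theorem x_RZF : T_RZF := Pool.Agent.H69.HFQ.pf_RZF x_RZA x_NFE

theorem x_RRN : T_RRN := Pool.Agent.H48.HFQ.pf_RRN x_RR1 x_RZF x_RCN

theorem x_HP1 : T_HP1 := Pool.Agent.H16.HFQ.pf_HP1 x_MN1 x_AC1 x_TB1 x_LPP x_RRN

theorem x_RT1 : T_RT1 := Pool.Agent.H48.HFQ.pf_RT1 x_SP1 x_SZP x_PO1 x_HP1

end Pool.Agent.H34.FQ.All
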