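import Pool.Agent.H32.RQ.Targets
import Pool.Agent.H32.RQ.Smooth
import Pool.Agent.H13.RQ.SMP

/-!
# The Hasse principle for almost all sections of a fixed quadric: definitions

`MP_63b6b1_nt`. A fixed nondegenerate integral quadratic form `F` in `n + 2` variables with a
nonzero zero, and a random form `f` with coefficients in `[-A, A]`. `Mon`, `md`, `nu`, `qf`, `dq`,
`jm`, `vb`, `LS`, `mnr`, `Prm`, `Iso`, `gm`, `dm`, `fj`, `tri`, `kap`, `lam`, `rr`, `pp`, `zs`, `pk`,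
`PR`, `NP`, `Sm` are in `Pool.Agent.H32.RQ`.
-/

set_option autoImplicit false

open Finset Pool.Agent.H32.RQ

namespace Pool.Agent.H34.FQ

/-! ### Quadratic forms -/

/-- the coefficients of the form `f` in the ring `R` -/
def cf (R : Type) [CommRing R] {s : ℕ} (f : Mon s → ℤ) : Mon s → R := fun p => (f p : R)

/-- the integral quadratic forms with coefficients in `[-A, A]` -/
noncomputable def b1 (s A : ℕ) : Finset (Mon s → ℤ) := Fintype.piFinset fun _ => Finset.Icc (-(A : ℤ)) A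

/-- the Hessian matrix (`Hs_mulVec`, `Hs_euler`, `Hs_map` in `Pool.Agent.H13.RQ`) -/
abbrev gr {R : Type} [CommRing R] {s : ℕ} (f : Mon s → R) : Matrix (Fin s) (Fin s) R :=
  Pool.Agent.H13.RQ.Hs f

/-- the bilinear form, `bl f x x = 2 * qf f x` -/
def bl {R : Type} [CommRing R] {s : ℕ} (f : Mon s → R) (x y : Fin s → R) : R := ∑ i, x i * dq f y i

/-- the coefficients of `x ↦ f (T x)` -/
def pb {R : Type} [CommRing R] {s : ℕ} (T : Matrix (Fin s) (Fin s) R) (f : Mon s → R) : Mon s → R :=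
  fun p => if p.1.1 = p.1.2 then qf f (fun i => T i p.1.1)
    else bl f (fun i => T i p.1.1) (fun i => T i p.1.2)

/-- the vector `(c, y, v)` -/
def pt {R : Type} {n : ℕ} (c y : R) (v : Fin n → R) : Fin (n + 2) → R := Fin.cons c (Fin.cons y v)

/-- the vector `(c, v)` -/
def cv {R : Type} {n : ℕ} (c : R) (v : Fin n → R) : Fin (n + 1) → R := Fin.cons c v

/-- the last `n` coordinates -/
def vt {R : Type} {n : ℕ} (x : Fin (n + 2) → R) : Fin n → R := fun i => x i.succ.succ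

/-- the matrix `T` over the ring `R`, applied to `x` -/
def mv {R : Type} [CommRing R] {s : ℕ} (T : Matrix (Fin s) (Fin s) ℤ) (x : Fin s → R) : Fin s → R :=
  fun i => ∑ j, (T i j : R) * x j

/-- a normal form of `F`: an integral change of coordinates `x = T (c, y, v)` with
`F = mu c y + q (c, v)`, and `r = q (0, .)` nondegenerate -/
structure NF {n : ℕ} (F : Mon (n + 2) → ℤ) where
  T : Matrix (Fin (n + 2)) (Fin (n + 2)) ℤ
  Ti : Matrix (Fin (n + 2)) (Fin (n + 2)) ℤ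
  h1 : T * Ti = 1
  h2 : Ti * T = 1
  mu : ℤ
  mu0 : mu ≠ 0
  q : Mon (n + 1) → ℤ
  r : Mon n → ℤ
  nd : (gr r).det ≠ 0
  hr : ∀ (R : Type) [CommRing R] (v : Fin n → R), qf (cf R q) (cv 0 v) = qf (cf R r) v
  hF : ∀ (R : Type) [CommRing R] (c y : R) (v : Fin n → R),
    qf (cf R F) (mv T (pt c y v)) = (mu : R) * c * y + qf (cf R q) (cv c v)

variable {n : ℕ} {F : Mon (n + 2) → ℤ}

/-- `mu c` times the point `T (c, - q (c, v) / (mu c), v)` of the quadric -/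
def xt {R : Type} [CommRing R] (N : NF F) (c : R) (v : Fin n → R) : Fin (n + 2) → R :=
  mv N.T (pt ((N.mu : R) * c ^ 2) (-qf (cf R N.q) (cv c v)) (fun i => (N.mu : R) * c * v i))

/-- the value of `f` at `xt`, a form of degree 4 in `(c, v)` -/
def gG {R : Type} [CommRing R] (N : NF F) (f : Mon (n + 2) → R) (c : R) (v : Fin n → R) : R :=
  qf f (xt N c v)

/-- the partial derivative of `v ↦ gG N f c v` with respect to `v i` -/
def dG {R : Type} [CommRing R] (N : NF F) (f : Mon (n + 2) → R) (c : R) (v : Fin n → R)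
    (i : Fin n) : R :=
  ∑ l, dq f (xt N c v) l *
    mv N.T (pt 0 (-dq (cf R N.q) (cv c v) i.succ) (fun k => if k = i then (N.mu : R) * c else 0)) l

/-! ### Points -/

open Classical in
/-- the points `(c, y, v)` with `c = m l`, `m ≤ m0`, `l` a prime in `(X, 4 X]` -/
noncomputable def EX (N : NF F) (m0 K X : ℕ) : Finset (Fin (n + 2) → ℤ) :=
  (vb (n + 2) (K * X)).filter fun e =>
    (∃ m l : ℕ, 1 ≤ m ∧ m ≤ m0 ∧ l.Prime ∧ X < l ∧ l ≤ 4 * X ∧ e 0 = m * l) ∧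
    N.mu * e 0 * e 1 + qf N.q (cv (e 0) (vt e)) = 0 ∧ qf N.r (vt e) ≠ 0

open Classical in
/-- the primitive isolated zeros of `F` which come from `EX` -/
noncomputable def SX (N : NF F) (m0 K D X : ℕ) : Finset (Fin (n + 2) → ℤ) :=
  ((EX N m0 K X).image (mv N.T)).filter fun x => Prm x ∧ Iso D x

/-- `x` has size between `B / K` and `B`, is primitive and isolated -/
structure Gv {s : ℕ} (B K D : ℕ) (x : Fin s → ℤ) : Prop where
  bd : ∀ i, |x i| ≤ B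
  big : ∃ i, (B : ℤ) ≤ K * |x i|
  prm : Prm x
  iso : Iso D x

/-- `F` and `f` have a nonzero common integral zero `x` with `|x_j| ^ n ≤ K A (1 + log A)`,
`s = n + 2` variables replaced by `s - 4` -/
def SZ1 {s : ℕ} (F : Mon s → ℤ) (K A : ℕ) (f : Mon s → ℤ) : Prop :=
  ∃ x : Fin s → ℤ, x ≠ 0 ∧ qf F x = 0 ∧ qf f x = 0 ∧
    ∀ j, |(x j : ℝ)| ^ (s - 4) ≤ K * A * (1 + Real.log A)

/-! ### The random model -/

section model

variable (Q : ℕ) [NeZero Q]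

/-- the weight of a form -/
noncomputable def w1 {s : ℕ} (J : ℕ) (f : Mon s → ZMod Q) : ℝ := ∏ p, fj Q J (f p)

/-- the number of zeros in `S` -/
noncomputable def n1 {s : ℕ} (S : Finset (Fin s → ℤ)) (f : Mon s → ZMod Q) : ℝ :=
  ∑ x ∈ S, if qf f (fun j => (x j : ZMod Q)) = 0 then 1 else 0

/-- the number of local zeros in `S` -/
noncomputable def l1 {s : ℕ} (W T : ℕ) (S : Finset (Fin s → ℤ)) (f : Mon s → ZMod Q) : ℝ :=
  ∑ x ∈ S, lam Q W T (qf f (fun j => (x j : ZMod Q)))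

end model

/-! ### Local conditions -/

open Classical in
/-- the number of zeros modulo `M` in the chart `c = 1` -/
noncomputable def aN (N : NF F) (M : ℕ) [NeZero M] (f : Mon (n + 2) → ZMod M) : ℕ :=
  (Finset.univ.filter fun u : Fin n → ZMod M => gG N f 1 u = 0).card

/-- `u` gives an integral point at `p`: `y = - q (c, u) / (mu c)` is integral at `p`, and the point
is primitive at `p` -/
def IP (N : NF F) (p : ℕ) (c : ℤ) (u : Fin n → ℤ) : Prop :=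
  (∀ k : ℕ, (p : ℤ) ^ k ∣ N.mu * c → (p : ℤ) ^ k ∣ qf N.q (cv c u)) ∧
  ((p : ℤ) ∣ c → (∀ i, (p : ℤ) ∣ u i) →
    ¬ ∀ k : ℕ, (p : ℤ) ^ k ∣ N.mu * c → (p : ℤ) ^ (k + 1) ∣ qf N.q (cv c u))

/-- robust solubility at `p`, with `c = p ^ j` -/
def RPj (N : NF F) (t p j : ℕ) (f : Mon (n + 2) → ℤ) : Prop :=
  ∃ u : Fin n → ℤ, ¬ (p : ℤ) ^ t ∣ N.mu * (p : ℤ) ^ j ∧ IP N p ((p : ℤ) ^ j) u ∧
    (p : ℤ) ^ (2 * t) ∣ gG N f ((p : ℤ) ^ j) u ∧ ∃ i, ¬ (p : ℤ) ^ t ∣ dG N f ((p : ℤ) ^ j) u i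

/-- robust solubility at `p` -/
def RP (N : NF F) (t p : ℕ) (f : Mon (n + 2) → ℤ) : Prop := ∃ j, RPj N t p j f

open Classical in
/-- the classes modulo `R` -/
noncomputable def UU (N : NF F) (m R : ℕ) (f : Mon (n + 2) → ℤ) : Finset (Fin n → ℤ) :=
  (Fintype.piFinset fun _ => Finset.Ico (0 : ℤ) R).filter fun u =>
    (R : ℤ) ∣ gG N f (m : ℤ) u ∧ ∀ p : ℕ, p.Prime → p ∣ R → IP N p m u

/-- the modulus `(mu m) ^ 2 W` -/
def Rm (N : NF F) (m W : ℕ) : ℕ := (N.mu.natAbs * m) ^ 2 * W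

/-- the vectors `v` in the classes `l UU`, with `l ∣ r (v)`, `|v| ≤ m l V` and
`|gG (1, v / (m l))| ≤ h` -/
def VL (N : NF F) (m R l : ℕ) (f : Mon (n + 2) → ℤ) (V h : ℝ) : Set (Fin n → ℤ) :=
  {v | (∃ u ∈ UU N m R f, ∀ i, (R : ℤ) ∣ v i - l * u i) ∧ (l : ℤ) ∣ qf N.r v ∧
    (∀ i, |(v i : ℝ)| ≤ m * l * V) ∧ |gG N (cf ℝ f) 1 (fun i => (v i : ℝ) / (m * l))| ≤ h}

/-- the section `c = 0` is bad at `p`: a point with `c ≡ 0` modulo `p ^ t` at which the gradients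
of the restrictions are proportional -/
def NQ (N : NF F) (t p : ℕ) (f : Mon (n + 2) → ℤ) : Prop :=
  ∃ e : Fin (n + 2) → ℤ, (∃ i, ¬ (p : ℤ) ∣ e i) ∧ (p : ℤ) ^ t ∣ e 0 ∧
    (p : ℤ) ^ t ∣ qf (pb N.T F) e ∧ (p : ℤ) ^ t ∣ qf (pb N.T f) e ∧
    ∀ a b, a ≠ 0 → b ≠ 0 → (p : ℤ) ^ t ∣ jm ![pb N.T F, pb N.T f] e a b

/-- `f` takes values `≥ ρ A` and `≤ - ρ A` at real zeros of `F` of norm one -/
def RB1 {s : ℕ} (F : Mon s → ℤ) (ρ : ℝ) (A : ℕ) (f : Mon s → ℤ) : Prop :=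
  ∃ x x' : Fin s → ℝ, (∀ j, |x j| ≤ 1) ∧ (∃ j, |x j| = 1) ∧ (∀ j, |x' j| ≤ 1) ∧ (∃ j, |x' j| = 1) ∧
    qf (cf ℝ F) x = 0 ∧ qf (cf ℝ F) x' = 0 ∧ ρ * A ≤ qf (cf ℝ f) x ∧ qf (cf ℝ f) x' ≤ -(ρ * A)

/-- the same in the chart -/
def RBN (N : NF F) (ρ V : ℝ) (A : ℕ) (f : Mon (n + 2) → ℤ) : Prop :=
  ∃ u u' : Fin n → ℝ, (∀ j, |u j| ≤ V) ∧ (∀ j, |u' j| ≤ V) ∧
    ρ * A ≤ gG N (cf ℝ f) 1 u ∧ gG N (cf ℝ f) 1 u' ≤ -(ρ * A)

/-! ### The special form -/

open Classical in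
/-- the forms which are close to `f₀`, over the reals (up to the factor `A / C`) and modulo `V` -/
noncomputable def sp1 {s : ℕ} (f₀ : Mon s → ℤ) (V C A : ℕ) (r : ℝ) : Finset (Mon s → ℤ) :=
  (b1 s A).filter fun f => ∀ p, (V : ℤ) ∣ f p - f₀ p ∧ |(f p : ℝ) - A / C * f₀ p| ≤ r * A

end Pool.Agent.H34.FQ
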