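import Pool.Agent.H34.FQ.Defs

/-!
# The Hasse principle for almost all sections of a fixed quadric: the rows of the board

Every row is a closed statement; the deductions take other rows as hypotheses.
-/

set_option autoImplicit false

open Finset Pool.Agent.H32.RQ

namespace Pool.Agent.H34.FQ

/-! ### A. The random model modulo `Q` -/

/-- (VR1) the second moment of the difference. -/
def T_VR1 : Prop :=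
  ∀ (s Q J W T : ℕ) [NeZero Q] (S : Finset (Fin s → ℤ)), 1 ≤ J → 2 * J ≤ Q → 1 ≤ W → W ∣ Q →
    T ∣ Q → 2 * W ≤ T →
    ∑ f : Mon s → ZMod Q, w1 Q J f * (n1 Q S f - l1 Q W T S f) ^ 2 ≤
      ((Q : ℝ) / J) ^ md s * ∑ x ∈ S, ∑ y ∈ S, pk Q J W T x y

open Classical in
/-- (TR1) from the random model to the box. -/
def T_TR1 : Prop :=
  ∀ (s A B J Q W T : ℕ) [NeZero Q] (S : Finset (Fin s → ℤ)) (E : Finset (Mon s → ℤ)) (M₀ : ℝ),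
    1 ≤ A → 1 ≤ J → Q = 2 * A * J → 1 ≤ W → W ∣ Q → T ∣ Q → 2 * W ≤ T →
    2 * A < Q → 2 * md s * A * B ^ 2 < Q → S ⊆ vb s B → E ⊆ b1 s A → 0 ≤ M₀ →
    (∀ f ∈ E, (∀ x ∈ S, qf f x ≠ 0) ∧
      M₀ ≤ ((S.filter fun x => (W : ℤ) ∣ qf f x ∧ 2 * |qf f x| ≤ T).card : ℝ)) →
    (E.card : ℝ) * ((4 / 10) ^ md s * ((W : ℝ) / T * (4 / 10) * M₀) ^ 2) ≤
      ∑ f : Mon s → ZMod Q, w1 Q J f * (n1 Q S f - l1 Q W T S f) ^ 2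

/-- (ST1) the structure lemma. -/
def T_ST1 : Prop :=
  ∀ (s B D : ℕ) (x y : Fin s → ℤ) (H θ φ : ℝ) (m : Fin s → Fin s → ℤ),
    (∀ i, |x i| ≤ B) → (∀ i, |y i| ≤ B) → Iso D x → Iso D y → dm x y ≠ 0 → 0 < H →
    4 * (B : ℝ) ^ 2 ≤ D * H → (∀ i l, m i l = m l i) →
    (∀ i l, |θ * x i * x l + φ * y i * y l - m i l| < 1 / H) →
    ∃ α β : ℚ, ∀ i l, (m i l : ℚ) = α * x i * x l + β * y i * y l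

/-- (DL1) a large minor of the squares. -/
def T_DL1 : Prop :=
  ∀ (s : ℕ) (x y : Fin s → ℤ) (i j : Fin s), ∃ p q : Mon s,
    (x i).natAbs * (y j).natAbs * dm x y ≤ 8 * (nu x p * nu y q - nu x q * nu y p).natAbs

/-- (PX1) the frequencies of the correlation. -/
def T_PX1 : Prop :=
  ∀ (s B K D A J Q W : ℕ) [NeZero Q] (x y : Fin s → ℤ) (p q : Mon s) (Δ : ℕ), 1 ≤ A →
    2 * B ^ 2 ≤ D * A → Q = 2 * A * J → 1 ≤ W → W ∣ Q → Gv B K D x → Gv B K D y →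
    dm x y ≠ 0 → Δ = (nu x p * nu y q - nu x q * nu y p).natAbs → 1 ≤ Δ → Δ ≤ J →
    ((zs Q J x y).card : ℝ) * Δ ≤ 9 * gm x y * (J : ℝ) ^ 2 ∧
    (gm x y ∣ W → ∀ z ∈ zs Q J x y, ∃ a n : ℤ,
      z.1 = ((n + a * ((Q / W : ℕ) : ℤ) : ℤ) : ZMod Q) ∧ |n| * Δ ≤ 2 * J * (B : ℤ) ^ 2)

/-- (PB1) the bounds for independent vectors. -/
def T_PB1 : Prop :=
  ∀ s K : ℕ, ∃ C : ℝ, 0 < C ∧ ∀ (B D A J Q W T : ℕ) [NeZero Q] (x y : Fin s → ℤ), 1 ≤ A →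
    2 * B ^ 2 ≤ D * A → Q = 2 * A * J → 2 * B ^ 4 ≤ J → 1 ≤ W → W ∣ Q → T ∣ Q → 2 * W ≤ T →
    Gv B K D x → Gv B K D y → dm x y ≠ 0 →
    pp Q J x y * ((2 * (A : ℝ)) ^ 2 * (B : ℝ) ^ 2 * dm x y) ≤ C * gm x y ∧
    (gm x y ∣ W → pk Q J W T x y * ((2 * (A : ℝ)) ^ 3 * (B : ℝ) ^ 2 * (dm x y : ℝ) ^ 2) ≤
      C * gm x y * T)

/-- (DI1) the bound for dependent vectors. -/
def T_DI1 : Prop :=
  ∀ (s B K D A J Q : ℕ) [NeZero Q] (x y : Fin s → ℤ), 1 ≤ A → B ≤ A → Q = 2 * A * J →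
    B ^ 2 ≤ J → Gv B K D x → (y = x ∨ y = -x) →
    pp Q J x y * (2 * A * (B : ℝ) ^ 2) ≤ 2 * (K : ℝ) ^ 2 + 1

/-! ### B. Pairs of points of the quadric -/

/-- (GDT) the minors after a unimodular change of coordinates. -/
def T_GDT : Prop :=
  ∀ (s : ℕ) (T Ti : Matrix (Fin s) (Fin s) ℤ), T * Ti = 1 → Ti * T = 1 → ∃ C : ℕ, 1 ≤ C ∧
    ∀ x y : Fin s → ℤ, gm (mv T x) (mv T y) = gm x y ∧ dm (mv T x) (mv T y) ≤ C * dm x y ∧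
      dm x y ≤ C * dm (mv T x) (mv T y)

/-- (GSA) Gauss sums of a nondegenerate quadratic form. -/
def T_GSA : Prop :=
  ∀ (n l : ℕ) [NeZero l] (r : Mon n → ℤ) (t : ZMod l) (h : Fin n → ZMod l), l.Prime →
    ¬ (l : ℤ) ∣ (gr r).det → t ≠ 0 →
    ‖∑ w : Fin n → ZMod l, ZMod.stdAddChar (t * qf (cf (ZMod l) r) w + ∑ i, h i * w i)‖ ^ 2 =
      (l : ℝ) ^ n

/-- (GSB) the zeros of a quadratic form modulo `l`, with triangular weights. -/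
def T_GSB : Prop :=
  ∀ (n l J : ℕ) [NeZero l] (r : Mon n → ℤ) (g : ZMod l) (a : Fin n → ZMod l), l.Prime →
    ¬ (l : ℤ) ∣ (gr r).det → 1 ≤ J → 2 * J ≤ l → g ≠ 0 →
    |∑ u : Fin n → ZMod l, (∏ i, tri l J (u i)) *
        (if qf (cf (ZMod l) r) (fun i => a i + g * u i) = 0 then (1 : ℝ) else 0) -
      (J : ℝ) ^ n / l| ≤ Real.sqrt l ^ n

open Classical in
/-- (GUP) the zeros modulo `l` in a box and a residue class: upper bound. -/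
def T_GUP : Prop :=
  ∀ n : ℕ, 2 ≤ n → ∃ C : ℝ, 0 < C ∧ ∀ (r : Mon n → ℤ) (l g L : ℕ) (a b : Fin n → ℤ), l.Prime →
    ¬ (l : ℤ) ∣ (gr r).det → 1 ≤ g → ¬ l ∣ g →
    (((Fintype.piFinset fun i => Finset.Icc (b i) (b i + L)).filter fun v =>
      (∀ i, (g : ℤ) ∣ v i - a i) ∧ (l : ℤ) ∣ qf r v).card : ℝ) ≤
      C * (((L : ℝ) / g + 1) ^ n / l + Real.sqrt l ^ n)

/-- (GLO) the zeros modulo `l` in a box and a residue class: lower bound. -/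
def T_GLO : Prop :=
  ∀ (n : ℕ) (r : Mon n → ℤ) (R : ℕ) (κ : ℝ), 3 ≤ n → (gr r).det ≠ 0 → 1 ≤ R → 0 < κ → κ ≤ 1 →
    ∃ X₀ : ℕ, ∀ (X l : ℕ) (b : Fin n → ℝ) (a : Fin n → ℤ), X₀ ≤ X → l.Prime → X < l →
    l ≤ 4 * X →
    κ ^ n * (X : ℝ) ^ (n - 1) / (8 ^ (n + 2) * (R : ℝ) ^ n) ≤
      ({v : Fin n → ℤ | (∀ i, b i ≤ v i ∧ (v i : ℝ) ≤ b i + κ * X) ∧
        (∀ i, (R : ℤ) ∣ v i - a i) ∧ (l : ℤ) ∣ qf r v}.ncard : ℝ)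

/-- (CHE) the number of the primes in `(X, 4 X]`. -/
def T_CHE : Prop :=
  ∃ c C : ℝ, 0 < c ∧ 0 < C ∧ ∀ X : ℕ, 2 ≤ X →
    c * X / Real.log X ≤ (((Finset.Ioc X (4 * X)).filter Nat.Prime).card : ℝ) ∧
    (((Finset.Ioc X (4 * X)).filter Nat.Prime).card : ℝ) ≤ C * X / Real.log X

/-- (RZE) the zeros of `r` in the box are rare. -/
def T_RZE : Prop :=
  ∀ (n : ℕ) (r : Mon n → ℤ) (K : ℕ) (ε : ℝ), 3 ≤ n → (gr r).det ≠ 0 → 0 < ε → ∃ X₀ : ℕ,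
    ∀ X : ℕ, X₀ ≤ X →
    (((vb n (K * X)).filter fun v => qf r v = 0).card : ℝ) ≤ ε * (X : ℝ) ^ (n - 1)

open Classical in
/-- (DVC) there are few points over every `v`. -/
def T_DVC : Prop :=
  ∀ (n : ℕ) (F : Mon (n + 2) → ℤ) (N : NF F) (m0 K : ℕ), ∃ X₀ : ℕ, ∀ X : ℕ, X₀ ≤ X →
    ∀ v : Fin n → ℤ, ((EX N m0 K X).filter fun e => vt e = v).card ≤ 2 * m0

/-- (ECD) the number of the points. -/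
def T_ECD : Prop :=
  ∀ (n : ℕ) (F : Mon (n + 2) → ℤ) (N : NF F) (m0 K : ℕ), 4 ≤ n → ∃ C : ℝ, 0 < C ∧ ∃ X₀ : ℕ,
    ∀ X : ℕ, X₀ ≤ X → ((EX N m0 K X).card : ℝ) ≤ C * (X : ℝ) ^ n / Real.log X

open Classical in
/-- (PAV) pairs of vectors with small minors which are proportional modulo `g`. -/
def T_PAV : Prop :=
  ∀ n : ℕ, 1 ≤ n → ∃ C : ℝ, 0 < C ∧ ∀ B D g : ℕ, 1 ≤ g →
    (((vb n B ×ˢ vb n B).filter fun q => dm q.1 q.2 ≠ 0 ∧ dm q.1 q.2 ≤ D ∧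
      ∃ k : ℤ, ∀ j, (g : ℤ) ∣ q.2 j - k * q.1 j).card : ℝ) ≤
      C * (B : ℝ) ^ 2 * ((D : ℝ) / g) ^ (n - 1)

open Classical in
/-- (PAR) the pairs of points over parallel vectors. -/
def T_PAR : Prop :=
  ∀ (n : ℕ) (F : Mon (n + 2) → ℤ) (N : NF F) (m0 K : ℕ), 4 ≤ n → ∃ C : ℝ, 0 < C ∧ ∃ X₀ : ℕ,
    ∀ X : ℕ, X₀ ≤ X →
    ∑ q ∈ (EX N m0 K X ×ˢ EX N m0 K X).filter (fun q => dm (vt q.1) (vt q.2) = 0 ∧ dm q.1 q.2 ≠ 0),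
      (gm q.1 q.2 : ℝ) * ((X : ℝ) ^ 2 / dm q.1 q.2) ^ 2 ≤ C * (X : ℝ) ^ (n + 3)

open Classical in
/-- (NSM) the pairs of points with small minors divisible by a small number `g`. -/
def T_NSM : Prop :=
  ∀ (n : ℕ) (F : Mon (n + 2) → ℤ) (N : NF F) (m0 K : ℕ), 4 ≤ n → ∃ C : ℝ, 0 < C ∧ ∃ X₀ : ℕ,
    ∀ X g D : ℕ, X₀ ≤ X → 1 ≤ g → (g : ℝ) ≤ Real.log X ^ 3 →
    (X : ℝ) ^ 2 ≤ D * Real.log X ^ 3 →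
    (((EX N m0 K X ×ˢ EX N m0 K X).filter fun q => g ∣ gm q.1 q.2 ∧ dm q.1 q.2 ≤ D).card : ℝ) ≤
      C * ((X : ℝ) ^ n / Real.log X) ^ 2 * ((D : ℝ) / X ^ 2) ^ n / (g : ℝ) ^ n

/-- (SM1) the sum over the pairs. -/
def T_SM1 : Prop :=
  ∀ n K : ℕ, 4 ≤ n → 1 ≤ K → ∃ C : ℝ, 0 < C ∧ ∀ (ι : Type) (P : Finset ι) (G D : ι → ℕ)
    (X W w : ℕ) (C₀ κ Λ : ℝ), 1 ≤ X → 0 ≤ C₀ → 0 ≤ κ → κ ≤ 1 → 1 ≤ Λ → 1 ≤ w →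
    (∀ g, 1 ≤ g → g ≤ w → g ∣ W) → (∀ i ∈ P, 1 ≤ G i ∧ G i ≤ D i ∧ D i ≤ K * X ^ 2) →
    (∀ g D' : ℕ, 1 ≤ g → ((P.filter fun i => G i = g ∧ D i ≤ D').card : ℝ) ≤
      C₀ * (X : ℝ) ^ 2 * ((D' : ℝ) / g) ^ (n - 1)) →
    (∀ g D' : ℕ, 1 ≤ g → (g : ℝ) ≤ Λ ^ 3 → (X : ℝ) ^ 2 ≤ D' * Λ ^ 3 →
      ((P.filter fun i => G i = g ∧ D i ≤ D').card : ℝ) ≤
        C₀ * ((X : ℝ) ^ n / Λ) ^ 2 * ((D' : ℝ) / X ^ 2) ^ n / (g : ℝ) ^ n) →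
    ∑ i ∈ P, (G i : ℝ) / D i * X ^ 2 * (if G i ∣ W then κ * X ^ 2 / D i else 1) ≤
      C * C₀ * ((X : ℝ) ^ n / Λ) ^ 2 * (1 / w + κ + 1 / Λ)

open Classical in
/-- (SE0) the sum over the pairs of points. -/
def T_SE0 : Prop :=
  ∀ (n : ℕ) (F : Mon (n + 2) → ℤ) (N : NF F) (m0 K : ℕ), 4 ≤ n → ∃ C : ℝ, 0 < C ∧ ∃ X₀ : ℕ,
    ∀ (X W w : ℕ) (κ : ℝ), X₀ ≤ X → 1 ≤ w → (∀ g, 1 ≤ g → g ≤ w → g ∣ W) → 0 ≤ κ → κ ≤ 1 →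
    ∑ q ∈ (EX N m0 K X ×ˢ EX N m0 K X).filter (fun q => Prm q.1 ∧ Prm q.2 ∧ dm q.1 q.2 ≠ 0),
      (gm q.1 q.2 : ℝ) / dm q.1 q.2 * X ^ 2 *
        (if gm q.1 q.2 ∣ W then κ * X ^ 2 / dm q.1 q.2 else 1) ≤
      C * ((X : ℝ) ^ n / Real.log X) ^ 2 * (1 / w + κ + 1 / Real.log X)

/-- (SXB) the size of the zeros. -/
def T_SXB : Prop :=
  ∀ (n : ℕ) (F : Mon (n + 2) → ℤ) (N : NF F) (m0 K : ℕ), ∃ K₁ K₂ : ℕ, 1 ≤ K₁ ∧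
    ∀ (D X : ℕ), ∀ x ∈ SX N m0 K D X, Gv (K₁ * X) K₂ D x

/-- (SE1) the second moment. -/
def T_SE1 : Prop :=
  ∀ (n : ℕ) (F : Mon (n + 2) → ℤ) (N : NF F) (m0 K : ℕ), 4 ≤ n → ∃ (C : ℝ) (K₁ X₀ : ℕ), 0 < C ∧
    ∀ (X D A J Q W T w : ℕ) [NeZero Q] (δ : ℝ), X₀ ≤ X → K₁ * X ≤ A → K₁ * X ^ 2 ≤ D * A →
    K₁ * X ^ 4 ≤ J → Q = 2 * A * J → 1 ≤ W → W ∣ Q → T ∣ Q → 2 * W ≤ T → 1 ≤ w →
    (∀ g, 1 ≤ g → g ≤ w → g ∣ W) → 0 ≤ δ → δ ≤ 1 → (T : ℝ) ≤ δ * A * (X : ℝ) ^ 2 →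
    ∑ x ∈ SX N m0 K D X, ∑ y ∈ SX N m0 K D X, pk Q J W T x y ≤
      C * (((X : ℝ) ^ (n - 2) / (A * Real.log X)) ^ 2 * (1 / w + δ + 1 / Real.log X) +
        (X : ℝ) ^ (n - 2) / (A * Real.log X))

/-! ### C. The primes `> w₀` -/

/-- (AC2) the correlation of two points of the chart modulo `M`. -/
def T_AC2 : Prop :=
  ∀ (n : ℕ) (F : Mon (n + 2) → ℤ) (N : NF F) (M : ℕ) [NeZero M] (u u' : Fin n → ZMod M),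
    IsUnit (N.mu : ZMod M) →
    (Finset.univ.filter fun q : ZMod M × ZMod M =>
      ∀ p : Mon (n + 2), q.1 * nu (xt N 1 u) p + q.2 * nu (xt N 1 u') p = 0).card =
      (Finset.univ.filter fun a : ZMod M => ∀ i, a * (u i - u' i) = 0).card

/-- (AC3) the sum of the correlations. -/
def T_AC3 : Prop :=
  ∀ (n M : ℕ) [NeZero M] (u : Fin n → ZMod M),
    ∑ u' : Fin n → ZMod M,
      ((Finset.univ.filter fun a : ZMod M => ∀ i, a * (u i - u' i) = 0).card : ℝ) ≤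
      (M : ℝ) ^ n * ∑ h ∈ M.divisors, (h : ℝ) / (h : ℝ) ^ n

open Classical in
/-- (AC1) for most forms the density modulo `M` is at least one half. -/
def T_AC1 : Prop :=
  ∀ n : ℕ, 4 ≤ n → ∃ C : ℝ, 0 < C ∧ ∀ (F : Mon (n + 2) → ℤ) (N : NF F) (M w₀ : ℕ) [NeZero M],
    1 ≤ w₀ → (∀ p : ℕ, p.Prime → p ∣ M → w₀ < p ∧ ¬ (p : ℤ) ∣ N.mu) →
    ((Finset.univ.filter fun f : Mon (n + 2) → ZMod M => 2 * aN N M f < M ^ (n - 1)).card : ℝ) *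
      (w₀ : ℝ) ^ 2 ≤ C * (M : ℝ) ^ md (n + 2)

/-- (TB1) from the residues to the box. -/
def T_TB1 : Prop :=
  ∀ (s A M : ℕ) [NeZero M] (E : Finset (Mon s → ZMod M)), M ≤ 2 * A + 1 →
    ((b1 s A).filter fun f => cf (ZMod M) f ∈ E).card * M ^ md s ≤
      2 ^ md s * (2 * A + 1) ^ md s * E.card

/-! ### D. The primes `≤ w₀` -/

/-- (PBK) pulling back a quadratic form. -/
def T_PBK : Prop :=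
  ∀ (R : Type) [CommRing R] (s : ℕ) (T : Matrix (Fin s) (Fin s) R) (f : Mon s → R)
    (x : Fin s → R),
    qf (pb T f) x = qf f (fun i => ∑ j, T i j * x j) ∧
    (∀ j, dq (pb T f) x j = ∑ i, T i j * dq f (fun i => ∑ j, T i j * x j) i) ∧
    ∀ Ti : Matrix (Fin s) (Fin s) R, T * Ti = 1 → Ti * T = 1 → pb Ti (pb T f) = f

/-- (QRC) roots of quadratic polynomials modulo a prime power. -/
def T_QRC : Prop :=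
  ∀ (p t e : ℕ) [NeZero (p ^ t)] (a b c : ZMod (p ^ t)), p.Prime →
    (Finset.univ.filter fun x : ZMod (p ^ t) => a * x ^ 2 + b * x + c = 0 ∧
      ∃ d : ℕ, d ≤ e ∧ d < t ∧ ∃ v : ZMod (p ^ t), IsUnit v ∧
        2 * a * x + b = (p : ZMod (p ^ t)) ^ d * v).card ≤ p ^ (2 * e + 1)

/-- (QZC) the smooth zeros of a quadratic form modulo a prime power. -/
def T_QZC : Prop :=
  ∀ (s p t e : ℕ) [NeZero (p ^ t)] (F : Mon s → ZMod (p ^ t)) (i₀ : Fin s), 2 ≤ s → p.Prime →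
    (Finset.univ.filter fun x : Fin s → ZMod (p ^ t) => x i₀ = 1 ∧ qf F x = 0 ∧
      ∃ j, ∃ d : ℕ, d ≤ e ∧ d < t ∧ ∃ v : ZMod (p ^ t), IsUnit v ∧
        dq F x j = (p : ZMod (p ^ t)) ^ d * v).card ≤ s * p ^ (2 * e + 1) * (p ^ t) ^ (s - 2)

/-- (PAL) vectors which are proportional to a given vector modulo a prime power. -/
def T_PAL : Prop :=
  ∀ (s p t e : ℕ) [NeZero (p ^ t)] (g : Fin s → ZMod (p ^ t)), p.Prime →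
    (∃ j, ∃ d : ℕ, d ≤ e ∧ d < t ∧ ∃ v : ZMod (p ^ t), IsUnit v ∧
      g j = (p : ZMod (p ^ t)) ^ d * v) →
    (Finset.univ.filter fun w : Fin s → ZMod (p ^ t) => ∀ i j, mnr w g i j = 0).card ≤
      p ^ (t + e * s)

/-- (PFG) the value and the gradient at a vector are independent. -/
def T_PFG : Prop :=
  ∀ (s M : ℕ) [NeZero M] (i₀ : Fin s) (x : Fin s → ZMod M), x i₀ = 1 →
    ∀ (a : ZMod M) (b : Fin s → ZMod M),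
    (Finset.univ.filter fun f : Mon s → ZMod M =>
      qf f x = a ∧ ∀ l, l ≠ i₀ → dq f x l = b l).card * M ^ s = M ^ md s

open Classical in
/-- (PNG) forms whose restriction to a quadric is singular modulo a prime power. -/
def T_PNG : Prop :=
  ∀ (s p t e : ℕ) [NeZero (p ^ t)] (F : Mon s → ZMod (p ^ t)), 2 ≤ s → p.Prime →
    (Finset.univ.filter fun f : Mon s → ZMod (p ^ t) => ∃ x : Fin s → ZMod (p ^ t),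
      (∃ i, IsUnit (x i)) ∧ qf F x = 0 ∧ qf f x = 0 ∧
      (∃ j, ∃ d : ℕ, d ≤ e ∧ d < t ∧ ∃ v : ZMod (p ^ t), IsUnit v ∧
        dq F x j = (p : ZMod (p ^ t)) ^ d * v) ∧
      ∀ j l, jm ![F, f] x j l = 0).card * p ^ t ≤
      s ^ 2 * p ^ (2 * e + 1 + e * s) * (p ^ t) ^ md s

open Classical in
/-- (PN1) forms which are bad at `p` are rare. -/
def T_PN1 : Prop :=
  ∀ (s : ℕ) (F : Mon s → ℤ) (p : ℕ), 2 ≤ s → (gr F).det ≠ 0 → p.Prime → ∃ C : ℝ, 0 < C ∧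
    ∀ t A : ℕ, p ^ t ≤ 2 * A + 1 →
    (((b1 s A).filter fun f => NP t p ![F, f]).card : ℝ) * (p : ℝ) ^ t ≤
      C * (2 * (A : ℝ) + 1) ^ md s

open Classical in
/-- (PN2) forms whose section `c = 0` is bad at `p` are rare. -/
def T_PN2 : Prop :=
  ∀ (n : ℕ) (F : Mon (n + 2) → ℤ) (N : NF F) (p k₀ : ℕ), 1 ≤ n → p.Prime → ∃ C : ℝ, 0 < C ∧
    ∀ t A : ℕ, p ^ t ≤ 2 * A + 1 →
    (((b1 (n + 2) A).filter fun f => NQ N t p f ∧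
      ¬ (p : ℤ) ^ k₀ ∣ qf f (fun i => N.T i 1)).card : ℝ) * (p : ℝ) ^ t ≤
      C * (2 * (A : ℝ) + 1) ^ md (n + 2)

/-- (PN3) the value at a primitive vector is rarely divisible by `M`. -/
def T_PN3 : Prop :=
  ∀ (s M A : ℕ) (z : Fin s → ℤ), Prm z → 1 ≤ M → M ≤ 2 * A + 1 →
    ((b1 s A).filter fun f => (M : ℤ) ∣ qf f z).card * M ≤ 2 ^ md s * (2 * A + 1) ^ md s

/-- (MOV) a `p`-adic point outside the section `c = 0`. -/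
def T_MOV : Prop :=
  ∀ (n : ℕ) (F : Mon (n + 2) → ℤ) (N : NF F) (f : Mon (n + 2) → ℤ) (p t k : ℕ), p.Prime →
    PR t p ![F, f] → ¬ NQ N t p f →
    ∃ e : Fin (n + 2) → ℤ, (∃ i, ¬ (p : ℤ) ∣ e i) ∧ ¬ (p : ℤ) ^ (2 * t) ∣ e 0 ∧
      (p : ℤ) ^ k ∣ qf (pb N.T F) e ∧ (p : ℤ) ^ k ∣ qf (pb N.T f) e ∧
      ∃ a b, ¬ (p : ℤ) ^ t ∣ jm ![pb N.T F, pb N.T f] e a b

/-- (TRM) from a `p`-adic point to the chart. -/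
def T_TRM : Prop :=
  ∀ (n : ℕ) (F : Mon (n + 2) → ℤ) (N : NF F) (p t : ℕ), p.Prime → ∃ t₁ : ℕ, ∀ t' : ℕ,
    t₁ ≤ t' → ∃ k : ℕ, ∀ (f : Mon (n + 2) → ℤ) (e : Fin (n + 2) → ℤ), (∃ i, ¬ (p : ℤ) ∣ e i) →
    ¬ (p : ℤ) ^ (2 * t) ∣ e 0 → (p : ℤ) ^ k ∣ qf (pb N.T F) e →
    (p : ℤ) ^ k ∣ qf (pb N.T f) e →
    (∃ a b, ¬ (p : ℤ) ^ t ∣ jm ![pb N.T F, pb N.T f] e a b) → RP N t' p f

open Classical in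
/-- (LPP) the forms with a `p`-adic zero which are not robust at `p` are rare. -/
def T_LPP : Prop :=
  ∀ (n : ℕ) (F : Mon (n + 2) → ℤ) (N : NF F) (p : ℕ) [Fact p.Prime] (ε : ℝ), 1 ≤ n →
    (gr F).det ≠ 0 → 0 < ε → ∃ t₁ : ℕ, ∀ t : ℕ, t₁ ≤ t → ∃ A₀ : ℕ, ∀ A : ℕ, A₀ ≤ A →
    (((b1 (n + 2) A).filter fun f => (∃ x : Fin (n + 2) → ℚ_[p], x ≠ 0 ∧
      ∀ i, qf (cm ℚ_[p] ![F, f] i) x = 0) ∧ ¬ RP N t p f).card : ℝ) ≤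
      ε * (2 * (A : ℝ) + 1) ^ md (n + 2)

/-- (HC1) the local classes at a prime `≤ w₀`. -/
def T_HC1 : Prop :=
  ∀ (n : ℕ) (F : Mon (n + 2) → ℤ) (N : NF F) (f : Mon (n + 2) → ℤ) (p t j k m' : ℕ), 1 ≤ n →
    p.Prime → ¬ p ∣ m' → 2 * t ≤ k → RPj N t p j f →
    p ^ ((k - 2 * t) * (n - 1)) ≤ (UU N (p ^ j * m') (p ^ k) f).card

/-- (CR1) the local classes are multiplicative. -/
def T_CR1 : Prop :=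
  ∀ (n : ℕ) (F : Mon (n + 2) → ℤ) (N : NF F) (f : Mon (n + 2) → ℤ) (m M M' : ℕ), 1 ≤ m →
    1 ≤ M → 1 ≤ M' → Nat.Coprime M M' →
    (∀ p k : ℕ, p.Prime → p ∣ M * M' → (p : ℤ) ^ k ∣ N.mu * m → p ^ (k + 1) ∣ M * M') →
    (UU N m (M * M') f).card = (UU N m M f).card * (UU N m M' f).card

/-- (UC2) the local classes at the primes `> w₀`. -/
def T_UC2 : Prop :=
  ∀ (n : ℕ) (F : Mon (n + 2) → ℤ) (N : NF F) (f : Mon (n + 2) → ℤ) (m M : ℕ) [NeZero M],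
    (∀ p : ℕ, p.Prime → p ∣ M → ¬ (p : ℤ) ∣ N.mu * m) →
    (UU N m M f).card = aN N M (cf (ZMod M) f)

/-- (UCL) a lower bound for the number of classes. -/
def T_UCL : Prop :=
  ∀ (n : ℕ) (F : Mon (n + 2) → ℤ) (N : NF F) (t w₀ : ℕ), 1 ≤ n →
    (∀ p : ℕ, p.Prime → (p : ℤ) ∣ N.mu → p ≤ w₀) → ∃ η : ℝ, 0 < η ∧
    ∀ (W₀ W₁ : ℕ) [NeZero W₀] [NeZero W₁] (f : Mon (n + 2) → ℤ),
    (∀ p : ℕ, p.Prime → p ∣ W₀ → p ≤ w₀) → (∀ p : ℕ, p.Prime → p ≤ w₀ → p ^ (2 * t) ∣ W₀) →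
    (∀ p : ℕ, p.Prime → p ∣ W₁ → w₀ < p) → (∀ p : ℕ, p.Prime → p ≤ w₀ → RP N t p f) →
    W₁ ^ (n - 1) ≤ 2 * aN N W₁ (cf (ZMod W₁) f) →
    ∃ m : ℕ, 1 ≤ m ∧ m ≤ (w₀.factorial) ^ t ∧
      η * (Rm N m (W₀ * W₁) : ℝ) ^ n / ((W₀ * W₁ : ℕ) : ℝ) ≤
        ((UU N m (Rm N m (W₀ * W₁)) f).card : ℝ)

/-! ### E. The real place -/

open Classical in
/-- (RR1) the forms which are not robust at the real place are rare. -/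
def T_RR1 : Prop :=
  ∀ (s : ℕ) (F : Mon s → ℤ), 1 ≤ s → ∃ C : ℝ, 0 < C ∧ ∀ ρ : ℝ, 0 < ρ → ρ ≤ 1 → ∃ A₀ : ℕ,
    ∀ A : ℕ, A₀ ≤ A →
    (((b1 s A).filter fun f => (∃ x : Fin s → ℝ, x ≠ 0 ∧ qf (cf ℝ F) x = 0 ∧
      qf (cf ℝ f) x = 0) ∧ ¬ RB1 F ρ A f).card : ℝ) ≤ C * ρ * (2 * (A : ℝ) + 1) ^ md s

/-- (RZA) a rational zero of `F` which is not orthogonal to two given vectors. -/
def T_RZA : Prop :=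
  ∀ (n : ℕ) (F : Mon (n + 2) → ℤ) (x x' : Fin (n + 2) → ℝ), 1 ≤ n → (gr F).det ≠ 0 →
    (∃ z : Fin (n + 2) → ℤ, z ≠ 0 ∧ qf F z = 0) → x ≠ 0 → x' ≠ 0 →
    ∃ z : Fin (n + 2) → ℤ, Prm z ∧ qf F z = 0 ∧ bl (cf ℝ F) (fun i => (z i : ℝ)) x ≠ 0 ∧
      bl (cf ℝ F) (fun i => (z i : ℝ)) x' ≠ 0

/-- (NFE) a normal form for every primitive zero. -/
def T_NFE : Prop :=
  ∀ (n : ℕ) (F : Mon (n + 2) → ℤ) (z : Fin (n + 2) → ℤ), (gr F).det ≠ 0 → Prm z → qf F z = 0 →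
    ∃ N : NF F, (∀ i, z i = N.T i 1) ∧
      ∀ x : Fin (n + 2) → ℝ, (N.mu : ℝ) * mv N.Ti x 0 = bl (cf ℝ F) (fun i => (z i : ℝ)) x

/-- (RZF) finitely many charts. -/
def T_RZF : Prop :=
  ∀ (n : ℕ) (F : Mon (n + 2) → ℤ), 1 ≤ n → (gr F).det ≠ 0 →
    (∃ z : Fin (n + 2) → ℤ, z ≠ 0 ∧ qf F z = 0) →
    ∃ (k : ℕ) (N : Fin k → NF F) (κ : ℝ), 0 < κ ∧ ∀ x x' : Fin (n + 2) → ℝ, (∃ j, |x j| = 1) →
      (∀ j, |x j| ≤ 1) → (∃ j, |x' j| = 1) → (∀ j, |x' j| ≤ 1) →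
      ∃ i, κ ≤ |mv (N i).Ti x 0| ∧ κ ≤ |mv (N i).Ti x' 0|

/-- (RCN) real points in the chart. -/
def T_RCN : Prop :=
  ∀ (n : ℕ) (F : Mon (n + 2) → ℤ) (N : NF F) (κ : ℝ), 0 < κ → ∃ C : ℝ, 1 ≤ C ∧
    ∀ x : Fin (n + 2) → ℝ, (∀ j, |x j| ≤ 1) → qf (cf ℝ F) x = 0 → κ ≤ |mv N.Ti x 0| →
    ∃ u : Fin n → ℝ, (∀ j, |u j| ≤ C) ∧ ∃ a : ℝ, 1 ≤ C * a ∧
      ∀ f : Mon (n + 2) → ℝ, gG N f 1 u = a * qf f x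

open Classical in
/-- (RRN) the forms with a real zero which are robust in no chart are rare. -/
def T_RRN : Prop :=
  ∀ (n : ℕ) (F : Mon (n + 2) → ℤ), 1 ≤ n → (gr F).det ≠ 0 →
    (∃ z : Fin (n + 2) → ℤ, z ≠ 0 ∧ qf F z = 0) →
    ∃ (k : ℕ) (N : Fin k → NF F), ∀ ε : ℝ, 0 < ε → ∃ V ρ : ℝ, 0 < V ∧ 0 < ρ ∧ ∃ A₀ : ℕ,
    ∀ A : ℕ, A₀ ≤ A →
    (((b1 (n + 2) A).filter fun f => (∃ x : Fin (n + 2) → ℝ, x ≠ 0 ∧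
      ∀ i, qf (cm ℝ ![F, f] i) x = 0) ∧ ∀ i, ¬ RBN (N i) ρ V A f).card : ℝ) ≤
      ε * (2 * (A : ℝ) + 1) ^ md (n + 2)

/-- (CU1) many disjoint cubes on which the form is small. -/
def T_CU1 : Prop :=
  ∀ (n : ℕ) (F : Mon (n + 2) → ℤ) (N : NF F) (V ρ : ℝ), 1 ≤ n → 0 < V → 0 < ρ →
    ∃ c₁ C : ℝ, 0 < c₁ ∧ 0 < C ∧ ∀ (f : Mon (n + 2) → ℝ) (u u' : Fin n → ℝ), (∀ p, |f p| ≤ 1) →
    (∀ j, |u j| ≤ V) → (∀ j, |u' j| ≤ V) → ρ ≤ gG N f 1 u → gG N f 1 u' ≤ -ρ →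
    ∀ h : ℝ, 0 < h → h ≤ c₁ → ∃ Y : Finset (Fin n → ℝ), (c₁ / h) ^ (n - 1) ≤ (Y.card : ℝ) ∧
      (∀ y ∈ Y, ∀ z : Fin n → ℝ, (∀ j, |z j - y j| ≤ h) →
        (∀ j, |z j| ≤ V + 2) ∧ |gG N f 1 z| ≤ C * h) ∧
      ∀ y ∈ Y, ∀ y' ∈ Y, y ≠ y' → ∃ j, 2 * h < |y j - y' j|

/-! ### F. Many local zeros -/

/-- (LO0) the vectors `v` for one prime `l`. -/
def T_LO0 : Prop :=
  ∀ (n : ℕ) (F : Mon (n + 2) → ℤ) (N : NF F) (V ρ : ℝ), 4 ≤ n → 0 < V → 0 < ρ →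
    ∃ c₂ C₂ : ℝ, 0 < c₂ ∧ 0 < C₂ ∧ ∀ (h : ℝ) (m R : ℕ), 0 < h → h ≤ c₂ → 1 ≤ m → 1 ≤ R →
    ∃ X₀ : ℕ, ∀ (X A l : ℕ) (f : Mon (n + 2) → ℤ), X₀ ≤ X → 1 ≤ A → f ∈ b1 (n + 2) A →
    RBN N ρ V A f → l.Prime → X < l → l ≤ 4 * X →
    (VL N m R l f (V + 2) (C₂ * h * A)).Finite ∧
    c₂ * h * (X : ℝ) ^ (n - 1) * (UU N m R f).card / (R : ℝ) ^ n ≤
      ((VL N m R l f (V + 2) (C₂ * h * A)).ncard : ℝ)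

/-- (LOI) from a vector `v` to a point of the quadric. -/
def T_LOI : Prop :=
  ∀ (n : ℕ) (F : Mon (n + 2) → ℤ) (N : NF F) (m0 : ℕ) (V : ℝ), 0 < V → ∃ K : ℕ,
    ∀ (m W l X : ℕ) (f : Mon (n + 2) → ℤ) (v : Fin n → ℤ) (h : ℝ), 1 ≤ m → m ≤ m0 → 1 ≤ W →
    l.Prime → X < l → l ≤ 4 * X → ¬ l ∣ Rm N m W → v ∈ VL N m (Rm N m W) l f V h →
    qf N.r v ≠ 0 → ¬ (∀ i, (l : ℤ) ∣ v i) →
    ∃ e ∈ EX N m0 K X, e 0 = (m : ℤ) * l ∧ vt e = v ∧ Prm e ∧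
      (W : ℤ) ∣ qf f (mv N.T e) ∧ |((qf f (mv N.T e) : ℤ) : ℝ)| ≤ ((m : ℝ) * l) ^ 2 * h

open Classical in
/-- (LO1) the lower bound for the number of local zeros. -/
def T_LO1 : Prop :=
  ∀ (n : ℕ) (F : Mon (n + 2) → ℤ) (N : NF F) (m0 : ℕ) (V ρ η : ℝ), 4 ≤ n → 0 < V → 0 < ρ →
    0 < η → ∃ (K : ℕ) (c₃ : ℝ), 0 < c₃ ∧ ∀ (W : ℕ) (δ : ℝ), 1 ≤ W → 0 < δ → δ ≤ c₃ →
    ∃ X₀ : ℕ, ∀ (X D A : ℕ) (f : Mon (n + 2) → ℤ), X₀ ≤ X → (D : ℝ) ≤ Real.log X ^ 3 →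
    1 ≤ A → f ∈ b1 (n + 2) A → RBN N ρ V A f →
    (∃ m : ℕ, 1 ≤ m ∧ m ≤ m0 ∧
      η * (Rm N m W : ℝ) ^ n / W ≤ ((UU N m (Rm N m W) f).card : ℝ)) →
    c₃ * δ * (X : ℝ) ^ n / (W * Real.log X) ≤
      (((SX N m0 K D X).filter fun x => (W : ℤ) ∣ qf f x ∧
        |((qf f x : ℤ) : ℝ)| ≤ δ * A * (X : ℝ) ^ 2).card : ℝ)

open Classical in
/-- (MN1) almost all robust forms have a small zero. -/
def T_MN1 : Prop :=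
  ∀ (n : ℕ) (F : Mon (n + 2) → ℤ) (N : NF F) (t w₀ : ℕ) (V ρ : ℝ), 4 ≤ n → 0 < V → 0 < ρ →
    (∀ p : ℕ, p.Prime → (p : ℤ) ∣ N.mu → p ≤ w₀) → ∀ ε : ℝ, 0 < ε →
    ∃ W₁ K A₀ : ℕ, ∃ _ : NeZero W₁, (∀ p : ℕ, p.Prime → p ∣ W₁ → w₀ < p) ∧ ∀ A : ℕ, A₀ ≤ A →
    (((b1 (n + 2) A).filter fun f => RBN N ρ V A f ∧
      (∀ p : ℕ, p.Prime → p ≤ w₀ → RP N t p f) ∧
      W₁ ^ (n - 1) ≤ 2 * aN N W₁ (cf (ZMod W₁) f) ∧ ¬ SZ1 F K A f).card : ℝ) ≤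
      ε * (2 * (A : ℝ) + 1) ^ md (n + 2)

open Classical in
/-- (HP1) almost all locally soluble forms have a small zero. -/
def T_HP1 : Prop :=
  ∀ (n : ℕ) (F : Mon (n + 2) → ℤ), 4 ≤ n → (gr F).det ≠ 0 →
    (∃ z : Fin (n + 2) → ℤ, z ≠ 0 ∧ qf F z = 0) → ∀ ε : ℝ, 0 < ε → ∃ K A₀ : ℕ, ∀ A : ℕ,
    A₀ ≤ A → (((b1 (n + 2) A).filter fun f => LS ![F, f] ∧ ¬ SZ1 F K A f).card : ℝ) ≤
      ε * (2 * (A : ℝ) + 1) ^ md (n + 2)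

/-! ### G. A positive proportion, smoothness and the end -/

/-- (PO0) a special form. -/
def T_PO0 : Prop :=
  ∀ (n : ℕ) (F : Mon (n + 2) → ℤ) (N : NF F), 1 ≤ n →
    ∃ (f₀ : Mon (n + 2) → ℤ) (C : ℕ) (r V ρ : ℝ) (e : Fin (n + 2) → ℤ) (t : ℕ), 1 ≤ C ∧ 0 < r ∧
      r ≤ 1 / 2 ∧ 0 < V ∧ 0 < ρ ∧
      (∀ (A U : ℕ), ∀ f ∈ sp1 f₀ U C A r, RBN N ρ V A f) ∧
      (∀ p, 2 * |f₀ p| ≤ C) ∧ Prm e ∧ qf (pb N.T F) e = 0 ∧ qf (pb N.T f₀) e = 0 ∧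
      ∀ p : ℕ, p.Prime → ¬ (p : ℤ) ^ (2 * t) ∣ e 0 ∧
        ∃ a b, ¬ (p : ℤ) ^ t ∣ jm ![pb N.T F, pb N.T f₀] e a b

/-- (PO2) the number of the forms close to the special form. -/
def T_PO2 : Prop :=
  ∀ (s V C : ℕ) (r : ℝ) (f₀ : Mon s → ℤ), 1 ≤ V → 1 ≤ C → (∀ p, 2 * |f₀ p| ≤ C) → 0 < r →
    r ≤ 1 / 2 → ∃ A₀ : ℕ, ∀ A : ℕ, A₀ ≤ A →
    (r * A / (2 * V)) ^ md s ≤ ((sp1 f₀ V C A r).card : ℝ)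

/-- (PO3) the forms close to the special form which are bad modulo `M`. -/
def T_PO3 : Prop :=
  ∀ (s V C M : ℕ) [NeZero M] (r : ℝ) (f₀ : Mon s → ℤ), 1 ≤ V → 1 ≤ C → 0 < r →
    Nat.Coprime V M → ∃ A₀ : ℕ, ∀ A : ℕ, A₀ ≤ A → ∀ E : Finset (Mon s → ZMod M),
    (((sp1 f₀ V C A r).filter fun f => cf (ZMod M) f ∈ E).card : ℝ) * (M : ℝ) ^ md s ≤
      (4 * r * A / V) ^ md s * E.card

open Classical in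
/-- (PO1) a positive proportion of the forms has a zero. -/
def T_PO1 : Prop :=
  ∀ (n : ℕ) (F : Mon (n + 2) → ℤ), 4 ≤ n → (gr F).det ≠ 0 →
    (∃ z : Fin (n + 2) → ℤ, z ≠ 0 ∧ qf F z = 0) → ∃ δ : ℝ, 0 < δ ∧ ∃ A₀ : ℕ, ∀ A : ℕ, A₀ ≤ A →
    δ * (2 * (A : ℝ) + 1) ^ md (n + 2) ≤ (((b1 (n + 2) A).filter fun f =>
      ∃ x : Fin (n + 2) → ℤ, x ≠ 0 ∧ qf F x = 0 ∧ qf f x = 0).card : ℝ)

/-- (SP1) a polynomial condition for smoothness. -/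
def T_SP1 : Prop :=
  ∀ (s : ℕ) (F : Mon s → ℤ), 2 ≤ s → (gr F).det ≠ 0 → ∃ P : MvPolynomial (Mon s) ℤ, P ≠ 0 ∧
    ∀ f : Mon s → ℤ, MvPolynomial.eval f P ≠ 0 → Sm ![F, f]

open Classical in
/-- (SZP) the zeros of a polynomial in the box are rare. -/
def T_SZP : Prop :=
  ∀ (s : ℕ) (P : MvPolynomial (Mon s) ℤ), P ≠ 0 → ∀ ε : ℝ, 0 < ε → ∃ A₀ : ℕ, ∀ A : ℕ, A₀ ≤ A →
    (((b1 s A).filter fun f => MvPolynomial.eval f P = 0).card : ℝ) ≤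
      ε * (2 * (A : ℝ) + 1) ^ md s

open Classical in
/-- (RT1) the final statement. -/
def T_RT1 : Prop :=
  ∀ (s : ℕ) (F : Mon s → ℤ), 6 ≤ s → (gr F).det ≠ 0 → (∃ x : Fin s → ℤ, x ≠ 0 ∧ qf F x = 0) →
    Filter.Tendsto (fun A : ℕ => (((b1 s A).filter fun f => ¬ Sm ![F, f]).card : ℝ) /
      (b1 s A).card) Filter.atTop (nhds 0) ∧
    (∃ δ : ℝ, 0 < δ ∧ ∃ A₀ : ℕ, ∀ A : ℕ, A₀ ≤ A → δ * ((b1 s A).card : ℝ) ≤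
      (((b1 s A).filter fun f => Sm ![F, f] ∧
        ∃ x : Fin s → ℤ, x ≠ 0 ∧ qf F x = 0 ∧ qf f x = 0).card : ℝ)) ∧
    Filter.Tendsto (fun A : ℕ => (((b1 s A).filter fun f => Sm ![F, f] ∧ LS ![F, f] ∧
        ∃ x : Fin s → ℤ, x ≠ 0 ∧ qf F x = 0 ∧ qf f x = 0).card : ℝ) /
      (((b1 s A).filter fun f => Sm ![F, f] ∧ LS ![F, f]).card : ℝ)) Filter.atTop (nhds 1) ∧
    ∀ ε : ℝ, 0 < ε → ∃ K A₀ : ℕ, ∀ A : ℕ, A₀ ≤ A →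
      (((b1 s A).filter fun f => LS ![F, f] ∧ ¬ SZ1 F K A f).card : ℝ) ≤
        ε * ((b1 s A).card : ℝ)

end Pool.Agent.H34.FQ
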